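import Mathlib
import Pool.Agent.H26.SwapSign

set_option autoImplicit false

namespace Pool.Agent.Results.MP_ab03e0_co.Parity

open Pool.Agent.H26.SwapSign

def IsQuasigroup {S : Type} (op : S → S → S) : Prop :=
  (∀ a b : S, ∃! x : S, op a x = b) ∧ (∀ a b : S, ∃! x : S, op x a = b)

def Ident {S : Type} (op : S → S → S) : Prop :=
  ∀ x y : S, op (op x y) y = op x (op x y)

def g : Fin 17 → Fin 17 := ![0, 4, 8, 5, 16, 14, 10, 6, 15, 2, 11, 7, 3, 1, 12, 9, 13]

def op17 (x y : Fin 17) : Fin 17 := x + g (y - x)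

theorem q17a : ∀ a b : Fin 17, ∃ x : Fin 17, op17 a x = b ∧ ∀ y : Fin 17, op17 a y = b → y = x := by
  decide +kernel

theorem q17b : ∀ a b : Fin 17, ∃ x : Fin 17, op17 x a = b ∧ ∀ y : Fin 17, op17 y a = b → y = x := by
  decide +kernel

theorem q17c : ∀ x y : Fin 17, op17 (op17 x y) y = op17 x (op17 x y) := by
  decide +kernel

theorem result :
    (∃ op : Fin 17 → Fin 17 → Fin 17, IsQuasigroup op ∧ Ident op) ∧
    (∀ (S : Type) [Finite S] [Nonempty S] (op : S → S → S), IsQuasigroup op → Ident op →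
      Nat.card S % 4 = 0 ∨ Nat.card S % 4 = 1) := by
  refine ⟨⟨op17, ⟨q17a, q17b⟩, q17c⟩, ?_⟩
  intro S _ _ op hq hi
  classical
  haveI := Fintype.ofFinite S
  rw [Nat.card_eq_fintype_card]
  apply mod_four
  have key : lam op hq.1 * rho op hq.2 =
      (Equiv.prodComm S S : Equiv.Perm (S × S)) * (rho op hq.2 * lam op hq.1) := by
    apply Equiv.ext
    rintro ⟨x, y⟩
    show (op x y, op (op x y) y) = (op x y, op x (op x y))
    rw [hi x y]
  have hs := congrArg Equiv.Perm.sign key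
  rw [map_mul, map_mul, map_mul, mul_comm (Equiv.Perm.sign (rho op hq.2))] at hs
  exact (mul_eq_right.mp hs.symm)

end Pool.Agent.Results.MP_ab03e0_co.Parity
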